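import Pool.Agent.K1H40.CT.Stm

/-! Seventh power of a sum (helper68, for helper40, project CT). -/

set_option autoImplicit false

namespace Pool.Agent.K1H68.CT

open Pool.Agent.K1H40.CT Finset

universe u

section

variable {R : Type u} [CommRing R] {L : Type u} [Ring L] [Algebra R L] {n : ℕ}

/-- one exchange of sums -/
theorem exch (e : Fin 7 → Fin n) (g : Fin n → R) (p : Fin 7 → L) (X Y : L) :
    ∑ k, g k • (X * (∑ c : Fin 7, if e c = k then p c else 0) * Y) =
      ∑ c, g (e c) • (X * p c * Y) := by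
  simp only [Finset.mul_sum, Finset.sum_mul, Finset.smul_sum]
  rw [Finset.sum_comm]
  refine Finset.sum_congr rfl fun c _ => ?_
  rw [Finset.sum_eq_single (e c)]
  · rw [if_pos rfl]
  · intro k _ hk
    rw [if_neg (Ne.symm hk)]
    simp
  · intro h
    exact absurd (mem_univ _) h

/-- four exchanges -/
theorem FF_eq (z : Fin n → Fin n → Fin n → Fin n → R) (e : Fin 7 → Fin n)
    (p0 p1 p2 p3 : Fin 7 → L) :
    FF z (fun i => ∑ j : Fin 7, if e j = i then p0 j else 0)
      (fun i => ∑ j : Fin 7, if e j = i then p1 j else 0)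
      (fun i => ∑ j : Fin 7, if e j = i then p2 j else 0)
      (fun i => ∑ j : Fin 7, if e j = i then p3 j else 0) =
    ∑ a, ∑ b, ∑ c, ∑ d, z (e a) (e b) (e c) (e d) • (p0 a * p1 b * p2 c * p3 d) := by
  unfold FF
  have h4 : ∀ (i j k : Fin n) (X : L),
      ∑ l, z i j k l • (X * ∑ d : Fin 7, if e d = l then p3 d else 0) =
      ∑ d, z i j k (e d) • (X * p3 d) := by
    intro i j k X
    have := exch e (fun l => z i j k l) p3 X 1
    simpa only [mul_one] using this
  simp only [h4]
  have h3 : ∀ (i j : Fin n) (X : L),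
      ∑ k, ∑ d, z i j k (e d) • (X * (∑ c : Fin 7, if e c = k then p2 c else 0) * p3 d) =
      ∑ c, ∑ d, z i j (e c) (e d) • (X * p2 c * p3 d) := by
    intro i j X
    rw [Finset.sum_comm]
    simp only [fun d => exch e (fun k => z i j k (e d)) p2 X (p3 d)]
    rw [Finset.sum_comm]
  simp only [h3]
  have h2 : ∀ (i : Fin n) (X : L),
      ∑ j, ∑ c, ∑ d, z i j (e c) (e d) • (X * (∑ b : Fin 7, if e b = j then p1 b else 0) *
        p2 c * p3 d) =
      ∑ b, ∑ c, ∑ d, z i (e b) (e c) (e d) • (X * p1 b * p2 c * p3 d) := by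
    intro i X
    rw [Finset.sum_comm]
    have h : ∀ c, ∑ j, ∑ d, z i j (e c) (e d) • (X * (∑ b : Fin 7, if e b = j then p1 b else 0) *
        p2 c * p3 d) = ∑ b, ∑ d, z i (e b) (e c) (e d) • (X * p1 b * p2 c * p3 d) := by
      intro c
      rw [Finset.sum_comm]
      have h' : ∀ d, ∑ j, z i j (e c) (e d) • (X * (∑ b : Fin 7, if e b = j then p1 b else 0) *
          p2 c * p3 d) = ∑ b, z i (e b) (e c) (e d) • (X * p1 b * p2 c * p3 d) := by
        intro d
        have := exch e (fun j => z i j (e c) (e d)) p1 X (p2 c * p3 d)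
        simpa only [mul_assoc] using this
      simp only [h']
      rw [Finset.sum_comm]
    simp only [h]
    rw [Finset.sum_comm]
  simp only [h2]
  have h1 : ∀ b c d, ∑ i, z i (e b) (e c) (e d) •
      ((∑ a : Fin 7, if e a = i then p0 a else 0) * p1 b * p2 c * p3 d) =
      ∑ a, z (e a) (e b) (e c) (e d) • (p0 a * p1 b * p2 c * p3 d) := by
    intro b c d
    have := exch e (fun i => z i (e b) (e c) (e d)) p0 1 (p1 b * p2 c * p3 d)
    simpa only [one_mul, mul_assoc] using this
  rw [Finset.sum_comm]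
  have h1' : ∀ b, ∑ i, ∑ c, ∑ d, z i (e b) (e c) (e d) •
      ((∑ a : Fin 7, if e a = i then p0 a else 0) * p1 b * p2 c * p3 d) =
      ∑ a, ∑ c, ∑ d, z (e a) (e b) (e c) (e d) • (p0 a * p1 b * p2 c * p3 d) := by
    intro b
    rw [Finset.sum_comm]
    have h : ∀ c, ∑ i, ∑ d, z i (e b) (e c) (e d) •
      ((∑ a : Fin 7, if e a = i then p0 a else 0) * p1 b * p2 c * p3 d) =
      ∑ a, ∑ d, z (e a) (e b) (e c) (e d) • (p0 a * p1 b * p2 c * p3 d) := by
      intro c
      rw [Finset.sum_comm]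
      simp only [h1]
      rw [Finset.sum_comm]
    simp only [h]
    rw [Finset.sum_comm]
  simp only [h1']
  rw [Finset.sum_comm]

/-- tuples of length four -/
def eqv : (Fin 7 × Fin 7 × Fin 7 × Fin 7) ≃ (Fin 4 → Fin 7) where
  toFun p := ![p.1, p.2.1, p.2.2.1, p.2.2.2]
  invFun m := (m 0, m 1, m 2, m 3)
  left_inv p := rfl
  right_inv m := by
    funext i
    fin_cases i <;> rfl

theorem sum4 (F : Fin 7 → Fin 7 → Fin 7 → Fin 7 → L) :
    ∑ a, ∑ b, ∑ c, ∑ d, F a b c d = ∑ m : Fin 4 → Fin 7, F (m 0) (m 1) (m 2) (m 3) := by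
  rw [← Fintype.sum_equiv eqv (fun p => F p.1 p.2.1 p.2.2.1 p.2.2.2)
    (fun m => F (m 0) (m 1) (m 2) (m 3)) (fun p => rfl)]
  simp only [Fintype.sum_prod_type]

/-- power of a sum in a noncommutative ring -/
theorem pow_sum {A : Type} [Fintype A] (x : A → L) (N : ℕ) :
    (∑ a, x a) ^ N = ∑ f : Fin N → A, (List.ofFn fun j => x (f j)).prod := by
  induction N with
  | zero => simp
  | succ N ih =>
    rw [pow_succ', ih, ← (Fin.consEquiv (fun _ : Fin (N + 1) => A)).sum_comp,
      Fintype.sum_prod_type, Finset.sum_mul]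
    refine Finset.sum_congr rfl fun a _ => ?_
    rw [Finset.mul_sum]
    refine Finset.sum_congr rfl fun f _ => ?_
    rw [List.ofFn_succ, List.prod_cons]
    simp [Fin.consEquiv]

/-- scalars -/
theorem prod_smul' (N : ℕ) (s : Fin N → R) (y : Fin N → L) :
    (List.ofFn fun j => s j • y j).prod = (∏ j, s j) • (List.ofFn y).prod := by
  induction N with
  | zero => simp
  | succ N ih =>
    rw [List.ofFn_succ, List.prod_cons, ih, List.ofFn_succ, List.prod_cons, Fin.prod_univ_succ,
      smul_mul_smul_comm]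

end

end Pool.Agent.K1H68.CT

namespace Pool.Agent.K1H68.CT

open Pool.Agent.K1H40.CT Finset

universe u

theorem t_TOP2 : S_TOP1.{u} → S_TOP2.{u} := by
  intro h1 R _ n e z
  have e1 : FF z (Th R e 0) (Th R e 1) (Th R e 2) (Th R e 3) =
      ∑ m : Fin 4 → Fin 7, z (e (m 0)) (e (m 1)) (e (m 2)) (e (m 3)) •
        (ps R 0 (m 0).castSucc * ps R 1 (m 1).castSucc * ps R 2 (m 2).castSucc *
          ps R 3 (m 3).castSucc) := by
    rw [← sum4 (fun a b c d => z (e a) (e b) (e c) (e d) •
      (ps R 0 a.castSucc * ps R 1 b.castSucc * ps R 2 c.castSucc * ps R 3 d.castSucc)),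
      ← FF_eq]
    rfl
  rw [e1, pow_sum]
  unfold hd
  rw [Finset.sum_smul]
  refine Finset.sum_congr rfl fun m _ => ?_
  rw [prod_smul', h1, mul_comm, mul_smul]

end Pool.Agent.K1H68.CT

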